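import Pool.Agent.K1H59.VX.Stm3
import Pool.Agent.K1H76.VX.T4
import Pool.Agent.K1H30.VX.U2

/-!
# Constants at the places (task W2, statement `S_PLC`)
-/

set_option autoImplicit false

namespace Pool.Agent.K1H7.VX

open MvPolynomial Finset Pool.Agent.K1H59.VX Pool.Agent.K1H30.VX

/-- the statement at one place -/
def AtPlace {m q : ℕ} (F : Fin q → MvPolynomial (Fin (m + 2)) ℤ) (d : Fin q → ℕ) (T : ℕ)
    (v : Option ℕ) (c : ℝ) : Prop :=
  ∀ (B : ℝ) (x : Fin (m + 2) → ℤ), 1 ≤ B → Box B x →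
    (∃ i, B / 2 ≤ |(x i : ℝ)|) → Finset.univ.gcd x = 1 →
    (∀ J : Finset (Fin q), (∀ j ∈ J, nval v B (d j) (eval x (F j)) < c) → J.card ≤ m + 1) ∧
    (∀ j : Fin q, nval v B (d j) (eval x (F j)) < c →
      ((Finset.range (T + 1)).filter (fun t : ℕ =>
        nval v B (d j - 1) (∑ i : Fin (m + 2), (t : ℤ) ^ (i : ℕ) * eval x (pderiv i (F j))) <
          c)).card < m + 2)

theorem AtPlace.mono {m q : ℕ} {F : Fin q → MvPolynomial (Fin (m + 2)) ℤ} {d : Fin q → ℕ} {T : ℕ}
    {v : Option ℕ} {c c' : ℝ} (h : AtPlace F d T v c) (hc : c' ≤ c) : AtPlace F d T v c' := by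
  intro B x hB hx hi hg
  obtain ⟨h1, h2⟩ := h B x hB hx hi hg
  refine ⟨fun J hJ => h1 J fun j hj => (hJ j hj).trans_le hc, fun j hj => ?_⟩
  refine (Finset.card_le_card ?_).trans_lt (h2 j (hj.trans_le hc))
  intro t ht
  rw [Finset.mem_filter] at ht ⊢
  exact ⟨ht.1, ht.2.trans_le hc⟩

/-- the statement over a normed field -/
theorem place_gen (K : Type) [NontriviallyNormedField K] [ProperSpace K] [CharZero K] {m q : ℕ}
    (F : Fin q → MvPolynomial (Fin (m + 2)) ℤ) (d : Fin q → ℕ) (hD : Div F d) (T : ℕ) {r : ℝ}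
    (hr : 0 < r) :
    ∃ c : ℝ, 0 < c ∧ ∀ (v : Option ℕ) (B : ℝ) (s : K) (x : Fin (m + 2) → ℤ),
      (∀ (k : ℕ) (a : ℤ), nval v B k a = ‖s ^ k * (a : K)‖) →
      (∀ i, ‖s * (x i : K)‖ ≤ 1) → (∃ i, r ≤ ‖s * (x i : K)‖) →
      (∀ J : Finset (Fin q), (∀ j ∈ J, nval v B (d j) (eval x (F j)) < c) → J.card ≤ m + 1) ∧
      (∀ j : Fin q, nval v B (d j) (eval x (F j)) < c →
        ((Finset.range (T + 1)).filter (fun t : ℕ =>
          nval v B (d j - 1) (∑ i : Fin (m + 2), (t : ℤ) ^ (i : ℕ) * eval x (pderiv i (F j))) <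
            c)).card < m + 2) := by
  obtain ⟨c₁, hc₁, h1⟩ := Pool.Agent.K1H76.VX.t_NC K (m + 2) q F d hD.hom (hD.snc K) r hr
  obtain ⟨c₂, hc₂, h2⟩ := Pool.Agent.K1H76.VX.t_DIR K (m + 2) T c₁ hc₁
  refine ⟨min c₁ c₂, lt_min hc₁ hc₂, ?_⟩
  intro v B s x hn hbox hlow
  have hz1 : ‖pt s x‖ ≤ 1 := by
    rw [pi_norm_le_iff_of_nonneg zero_le_one]
    exact hbox
  have hz2 : r ≤ ‖pt s x‖ := by
    obtain ⟨i, hi⟩ := hlow
    exact hi.trans (norm_le_pi_norm (pt s x) i)
  obtain ⟨h3, h4⟩ := h1 (pt s x) hz2 hz1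
  have h5 : ∀ j, ‖aeval (pt s x) (F j)‖ = nval v B (d j) (eval x (F j)) := fun j => by
    rw [aeval_pt s x (hD.hom j), hn]
  refine ⟨fun J hJ => ?_, fun j hj => ?_⟩
  · have := h4 J fun j hj => by
      rw [h5]
      exact (hJ j hj).trans_le (min_le_left _ _)
    simpa using this
  · have h6 := h3 j (by rw [h5]; exact hj.trans_le (min_le_left _ _))
    have h7 := h2 (fun i => aeval (pt s x) (pderiv i (F j))) h6
    refine (Finset.card_le_card ?_).trans_lt h7
    intro t ht
    rw [Finset.mem_filter] at ht ⊢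
    refine ⟨ht.1, ?_⟩
    have h8 : ∑ i : Fin (m + 2), (t : K) ^ (i : ℕ) * aeval (pt s x) (pderiv i (F j)) =
        s ^ (d j - 1) * ((∑ i : Fin (m + 2), (t : ℤ) ^ (i : ℕ) * eval x (pderiv i (F j)) : ℤ) : K) := by
      push_cast
      rw [Finset.mul_sum]
      refine Finset.sum_congr rfl fun i _ => ?_
      rw [aeval_pt s x (hD.hom j).pderiv]
      ring
    rw [h8, ← hn]
    exact ht.2.trans_le (min_le_right _ _)

/-- the statement at each place -/
theorem atPlace {m q : ℕ} (F : Fin q → MvPolynomial (Fin (m + 2)) ℤ) (d : Fin q → ℕ)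
    (hD : Div F d) (T : ℕ) (v : Option ℕ) (hv : ∀ p, v = some p → p.Prime) :
    ∃ c : ℝ, 0 < c ∧ AtPlace F d T v c := by
  match v, hv with
  | none, _ =>
    obtain ⟨c, hc, h⟩ := place_gen ℝ F d hD T (r := 1 / 2) (by norm_num)
    refine ⟨c, hc, fun B x hB hx hi _ => h none B B⁻¹ x ?_ ?_ ?_⟩
    · intro k a
      have hB0 : 0 < B := by linarith
      rw [norm_mul, norm_pow, norm_inv, Real.norm_eq_abs, Real.norm_eq_abs, abs_of_pos hB0]
      show |(a : ℝ)| / B ^ k = _
      rw [inv_pow]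
      field_simp
    · intro i
      have hB0 : 0 < B := by linarith
      rw [norm_mul, norm_inv, Real.norm_eq_abs, Real.norm_eq_abs, abs_of_pos hB0,
        inv_mul_le_iff₀ hB0, mul_one]
      exact hx i
    · obtain ⟨i, hi⟩ := hi
      refine ⟨i, ?_⟩
      have hB0 : 0 < B := by linarith
      rw [norm_mul, norm_inv, Real.norm_eq_abs, Real.norm_eq_abs, abs_of_pos hB0,
        le_inv_mul_iff₀ hB0]
      linarith
  | some p, hv =>
    have : Fact p.Prime := ⟨hv p rfl⟩
    obtain ⟨c, hc, h⟩ := place_gen ℚ_[p] F d hD T (r := 1) one_pos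
    refine ⟨c, hc, fun B x hB hx _ hg => h (some p) B 1 x ?_ ?_ ?_⟩
    · intro k a
      rw [one_pow, one_mul]
      show ((padicNorm p (a : ℚ) : ℚ) : ℝ) = _
      rw [← Padic.eq_padicNorm]
      norm_cast
    · intro i
      rw [one_mul]
      exact Padic.norm_int_le_one _
    · by_contra hcon
      push Not at hcon
      have hdvd : ∀ i, (p : ℤ) ∣ x i := fun i => by
        have h1 := hcon i
        rw [one_mul] at h1
        exact Padic.norm_intCast_lt_one_iff.mp h1
      have h2 : (p : ℤ) ∣ Finset.univ.gcd x := Finset.dvd_gcd fun i _ => hdvd i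
      rw [hg] at h2
      have h3 : (p : ℤ) ≤ 1 := Int.le_of_dvd one_pos h2
      have h4 : 2 ≤ p := (hv p rfl).two_le
      omega

/-- (W2) the constants at the places -/
theorem t_PLC : S_PLC := by
  classical
  intro m q F d hD S hS T hT
  have hv : ∀ v ∈ insertNone S, ∃ c : ℝ, 0 < c ∧ AtPlace F d T v c := by
    intro v hvS
    refine atPlace F d hD T v fun p hp => hS p ?_
    subst hp
    exact Finset.some_mem_insertNone.mp hvS
  choose! cv hcv hplace using hv
  have hne : (insertNone S).Nonempty := ⟨none, Finset.none_mem_insertNone⟩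
  refine ⟨(insertNone S).inf' hne cv, ?_, ?_⟩
  · rw [Finset.lt_inf'_iff]
    exact hcv
  · generalize hc : (insertNone S).inf' hne cv = c
    have hpl : ∀ v ∈ insertNone S, AtPlace F d T v c := fun v hvS =>
      (hplace v hvS).mono (hc ▸ Finset.inf'_le cv hvS)
    intro B x hB hx hi hg
    refine ⟨fun v hvS => (hpl v hvS B x hB hx hi hg).1, fun J => ?_⟩
    by_contra hcon
    push Not at hcon
    have hcov : Finset.range (T + 1) ⊆ (insertNone S).biUnion (fun v =>
        if nval v B (d (J v)) (eval x (F (J v))) < c then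
          (Finset.range (T + 1)).filter (fun t : ℕ =>
            nval v B (d (J v) - 1)
              (∑ i : Fin (m + 2), (t : ℤ) ^ (i : ℕ) * eval x (pderiv i (F (J v)))) < c)
        else ∅) := by
      intro t ht
      obtain ⟨v, hvS, h1, h2⟩ := hcon t (Nat.lt_succ_iff.mp (Finset.mem_range.mp ht))
      rw [Finset.mem_biUnion]
      refine ⟨v, hvS, ?_⟩
      rw [if_pos h1, Finset.mem_filter]
      exact ⟨ht, h2⟩
    have hcard := (Finset.card_le_card hcov).trans Finset.card_biUnion_le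
    have hle : ∀ v ∈ insertNone S, (if nval v B (d (J v)) (eval x (F (J v))) < c then
          (Finset.range (T + 1)).filter (fun t : ℕ =>
            nval v B (d (J v) - 1)
              (∑ i : Fin (m + 2), (t : ℤ) ^ (i : ℕ) * eval x (pderiv i (F (J v)))) < c)
        else ∅).card ≤ m + 1 := by
      intro v hvS
      split_ifs with h1
      · exact Nat.lt_succ_iff.mp ((hpl v hvS B x hB hx hi hg).2 (J v) h1)
      · simp
    have h1 := hcard.trans (Finset.sum_le_card_nsmul _ _ _ hle)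
    rw [Finset.card_range, Finset.card_insertNone, smul_eq_mul] at h1
    have h2 : (m + 2) * (S.card + 1) = (S.card + 1) * (m + 1) + (S.card + 1) := by ring
    omega

end Pool.Agent.K1H7.VX
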